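import Pool.Agent.Q173.PT.Middle

/-!
# `L²`-Betti numbers of aspherical manifolds above the middle degree: asymptotic vanishing suffices
-/

set_option autoImplicit false

open Pool.Agent.Q173.PT

namespace Pool.Agent.Results.MP_4f4d9f_gt.AsymptoticVanishing

universe u

theorem result {V : Type u} (G : OpenData V) (hG : G.IsKnown) :
    (G.VanishAbove ↔ ∀ ε : ℝ, 0 < ε → ∀ B : ℕ, ∃ m, B ≤ m ∧ ∀ M, G.dim M = 2 * m →
      ∀ k : ℕ, (1 + ε) * m ≤ k → m < k → G.betti M k = 0) ∧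
    (G.VanishAbove ↔ ∀ j B : ℕ, 1 ≤ j → ∃ m, B ≤ m ∧ ∀ M, G.dim M = 2 * m →
      G.betti M (m + j) = 0) :=
  hG.criteria

end Pool.Agent.Results.MP_4f4d9f_gt.AsymptoticVanishing
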