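import Pool.Agent.Q169.RC.VKQ
import Pool.Agent.Q169.RC.Grow
import Pool.Agent.Y131.KS.Odd
import Pool.Agent.Y131.KS.Alm

/-!
# `ℓ²`-vanishing above the middle dimension for right-angled Coxeter groups with a balanced nerve

Let `L` be the flag complex of the graph `G` on `0, ..., n-1`. If the graph has a proper colouring with `δ + 1`
colours then `L` has dimension at most `δ`. If such a complex `L` embeds (piecewise linearly) in the sphere
`S^(2δ)` then the right-angled Coxeter group `W G` acts properly and cocompactly on a contractible manifold with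
boundary of dimension `2 δ + 1`, and the quotients by torsion-free subgroups of finite index are compact aspherical
`(2 δ + 1)`-manifolds. We show that the `ℓ²`-homology of `W G` vanishes in all degrees above half of this dimension,
that is in the degrees `i > δ`. The embedding is not needed: the vanishing of the mod `2` van Kampen obstruction is
sufficient; it is implied by the existence of an almost embedding in `S^(2δ)` and by the existence of a mod `2`
homology sphere of dimension `2 δ` which contains `L` as a (not necessarily full) subcomplex.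
-/

set_option autoImplicit false

namespace Pool.Agent.Results.MP_4f4d9f_gt.BalancedNerves

open Finset Pool.Agent.W907.SG Pool.Agent.Y132.SI

/-- the flag complex of a graph: its simplices are the cliques -/
noncomputable def flagComplex {n : ℕ} (G : SimpleGraph (Fin n)) : Finset (Finset (Fin n)) := by
  classical exact univ.filter (fun T => G.IsClique (T : Set (Fin n)))

/-! ### the obstruction -/

/-- elements of `U` of even rank (the smallest element has rank `0`) -/
def evens {n : ℕ} (U : Finset (Fin n)) : Finset (Fin n) :=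
  U.filter (fun u => Even (U.filter (fun w => w < u)).card)

/-- elements of `U` of odd rank -/
def odds {n : ℕ} (U : Finset (Fin n)) : Finset (Fin n) :=
  U.filter (fun u => ¬ Even (U.filter (fun w => w < u)).card)

/-- the obstruction vanishes. The simplices of the deleted join of `L` are the pairs `(σ, τ)` of
disjoint faces; `Z` is a chain of dimension `d` (only its values at pairs with `d + 1` vertices
matter) with coefficients modulo `2`, symmetric under the exchange of `σ` and `τ`, and its boundary
is zero. The sum is over the alternating simplices; it is the value at `Z / (ℤ/2)` of the `d`-th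
power of the class of the double covering of the deleted join -/
def ObstructionVanishes {n : ℕ} (L : Finset (Finset (Fin n))) (d : ℕ) : Prop :=
  ∀ Z : Finset (Fin n) → Finset (Fin n) → ZMod 2,
    (∀ σ τ, Z σ τ = Z τ σ) →
    (∀ σ τ, Z σ τ ≠ 0 → σ ∈ L ∧ τ ∈ L) →
    (∀ ρ τ : Finset (Fin n), Disjoint ρ τ → ρ.card + τ.card = d →
      ∑ v ∈ (ρ ∪ τ)ᶜ, (Z (insert v ρ) τ + Z ρ (insert v τ)) = 0) →
    ∑ U ∈ powersetCard (d + 1) univ, Z (evens U) (odds U) = 0

/-- the geometric realization, in barycentric coordinates -/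
def realization {n : ℕ} (L : Finset (Finset (Fin n))) : Set (Fin n → ℝ) :=
  {x | (∀ i, 0 ≤ x i) ∧ ∑ i, x i = 1 ∧ ∃ σ ∈ L, ∀ i, i ∉ σ → x i = 0}

/-- topologically embeddable in the sphere `S^(d-1)`, the unit sphere of `ℝ^d` -/
def EmbedsInSphere {n : ℕ} (L : Finset (Finset (Fin n))) (d : ℕ) : Prop :=
  ∃ f : realization L → Metric.sphere (0 : EuclideanSpace ℝ (Fin d)) 1, Topology.IsEmbedding f

/-- `L` almost embeds in `S^(d-1)`: there is a continuous map such that points of disjoint faces
have different images -/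
def AlmostEmbeds {n : ℕ} (L : Finset (Finset (Fin n))) (d : ℕ) : Prop :=
  ∃ f : realization L → Metric.sphere (0 : EuclideanSpace ℝ (Fin d)) 1, Continuous f ∧
    ∀ x y : realization L, (∀ i, (x : Fin n → ℝ) i = 0 ∨ (y : Fin n → ℝ) i = 0) → f x ≠ f y

/-! ### homology spheres -/

/-- the chain `c`, with coefficients modulo `2`, is supported on the faces of `K` with `j`
vertices -/
def SupportedOn {N : ℕ} (K : Finset (Finset (Fin N))) (j : ℕ) (c : Finset (Fin N) → ZMod 2) :
    Prop :=
  ∀ σ, c σ ≠ 0 → σ ∈ K ∧ σ.card = j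

/-- the boundary of a chain (the augmentation is included: the empty face has dimension `-1`) -/
def boundary {N : ℕ} (c : Finset (Fin N) → ZMod 2) (ρ : Finset (Fin N)) : ZMod 2 :=
  ∑ v ∈ ρᶜ, c (insert v ρ)

/-- the reduced mod `2` homology of `K` vanishes in dimension `j - 1` -/
def AcyclicAt {N : ℕ} (K : Finset (Finset (Fin N))) (j : ℕ) : Prop :=
  ∀ c : Finset (Fin N) → ZMod 2, SupportedOn K j c → (∀ ρ, boundary c ρ = 0) →
    ∃ b, SupportedOn K (j + 1) b ∧ ∀ ρ, c ρ = boundary b ρ

/-- the link of the face `σ` -/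
def link {N : ℕ} (K : Finset (Finset (Fin N))) (σ : Finset (Fin N)) : Finset (Finset (Fin N)) :=
  univ.filter (fun τ => Disjoint τ σ ∧ τ ∪ σ ∈ K)

/-- mod `2` homology spheres of dimension `d - 1`: the complex `K` contains the empty face and is closed under
subsets, and the link of every face `σ` (also of the empty face) has the reduced mod `2` homology of a sphere of
dimension `d - 1 - |σ|` -/
def IsHomologySphere {N : ℕ} (K : Finset (Finset (Fin N))) (d : ℕ) : Prop :=
  (∅ ∈ K ∧ ∀ σ ∈ K, ∀ τ : Finset (Fin N), τ ⊆ σ → τ ∈ K) ∧ (∀ σ ∈ K, σ.card ≤ d) ∧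
    (∀ σ ∈ K, ∀ j, j + σ.card ≠ d → AcyclicAt (link K σ) j) ∧
    ∀ σ ∈ K, ∃ z : Finset (Fin N) → ZMod 2, z ≠ 0 ∧ SupportedOn (link K σ) (d - σ.card) z ∧
      (∀ ρ, boundary z ρ = 0) ∧
      ∀ z', SupportedOn (link K σ) (d - σ.card) z' → (∀ ρ, boundary z' ρ = 0) → z' = 0 ∨ z' = z

/-- `L` is (isomorphic to) a subcomplex of a mod `2` homology sphere of dimension `d - 1` -/
def InHomologySphere {n : ℕ} (L : Finset (Finset (Fin n))) (d : ℕ) : Prop :=
  ∃ (N : ℕ) (K : Finset (Finset (Fin N))) (f : Fin n ↪ Fin N), IsHomologySphere K d ∧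
    ∀ σ ∈ L, σ.map f ∈ K

/-! ### the theorem -/

theorem mem_flag {n : ℕ} (G : SimpleGraph (Fin n)) (T : Finset (Fin n)) :
    T ∈ flagComplex G ↔ G.IsClique (T : Set (Fin n)) := by
  classical
  unfold flagComplex
  simp

theorem flag_cx {n : ℕ} (G : SimpleGraph (Fin n)) :
    ∅ ∈ flagComplex G ∧ ∀ σ ∈ flagComplex G, ∀ τ : Finset (Fin n), τ ⊆ σ → τ ∈ flagComplex G := by
  refine ⟨(mem_flag _ _).2 (by simp), fun σ hσ τ hτ => (mem_flag _ _).2 ?_⟩
  exact ((mem_flag _ _).1 hσ).subset (by exact_mod_cast hτ)

/-- Let the graph `G` be properly coloured with `δ + 1` colours and let `L` be its flag complex.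
(1) Assume that the mod `2` obstruction of the deleted join of `L` in the degree `2 δ + 1` vanishes. Then for every
full subcomplex `A` of `L` and all `i > δ` there are no nonzero `ℓ²` harmonic `i`-chains on the Davis complex of the
right-angled Coxeter group of `A`. Moreover for each `ε > 0` there is a finite set `E` of nontrivial elements of
`W G` such that for every subgroup `H` of finite index which contains no conjugate of an element of `E` and all
`i > δ` the `i`-th real Betti number of `H` is at most `ε [W G : H]`.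
(2)-(4) The obstruction vanishes if `L` embeds or almost embeds in `S^(2δ)`, and if `L` is a subcomplex of a mod `2`
homology sphere of dimension `2 δ`. -/
theorem result (n δ : ℕ) (G : SimpleGraph (Fin n)) (κ : Fin n → Fin (δ + 1))
    (hκ : ∀ u v, G.Adj u v → κ u ≠ κ v) :
    (ObstructionVanishes (flagComplex G) (2 * δ + 1) →
      (∀ (A : Set (Fin n)) [Fintype A] (i : ℕ), δ < i → L2Van (G.induce A) i) ∧
      ∀ ε : ℝ, 0 < ε → ∃ E : Finset (W G), (1 : W G) ∉ E ∧
        ∀ H : Subgroup (W G), H.FiniteIndex → (∀ g ∈ E, ∀ x : W G, x * g * x⁻¹ ∉ H) →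
          ∀ i : ℕ, δ < i → (Module.finrank ℝ (HInv G H i) : ℝ) ≤ ε * H.index) ∧
    (EmbedsInSphere (flagComplex G) (2 * δ + 1) → AlmostEmbeds (flagComplex G) (2 * δ + 1)) ∧
    (AlmostEmbeds (flagComplex G) (2 * δ + 1) → ObstructionVanishes (flagComplex G) (2 * δ + 1)) ∧
    (InHomologySphere (flagComplex G) (2 * δ + 1) → ObstructionVanishes (flagComplex G) (2 * δ + 1)) := by
  classical
  have hK := flag_cx G
  refine ⟨fun h => ?_, fun h => ?_, fun h => ?_, fun h => ?_⟩
  · have hV : Pool.Agent.Y131.KS.VK2 (flagComplex G) (2 * δ + 1 + 1) := by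
      intro Z h1 h2 h3
      exact h Z h1 h2 (fun ρ τ a b => h3 ρ τ a (by omega))
    have hQ : Pool.Agent.TH652.Above.Q (2 * δ + 1) G := by
      refine Pool.Agent.Q169.RC.vk_Q G δ κ hκ (flagComplex G) hV (Function.Embedding.refl _) (fun T hT => ?_)
      rw [Finset.map_refl]
      exact (mem_flag _ _).2 hT
    have hA : ∀ (A : Set (Fin n)) [Fintype A] (i : ℕ), δ < i → L2Van (G.induce A) i :=
      fun A _ i hi => hQ.2 A i (by omega) _ _
    refine ⟨hA, fun ε hε => ?_⟩
    refine Pool.Agent.Q169.RC.growth_of G (fun i => δ < i) (fun i hi => ?_) ε hε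
    exact ((Pool.Agent.TH652.Above.lv_univ G i).1 (hQ.2 Set.univ i (by omega))) _ _
  · obtain ⟨f, hf⟩ := h
    refine ⟨f, hf.continuous, ?_⟩
    intro x y hxy hfe
    have e := hf.injective hfe
    subst e
    have h0 : ∀ i, (x : Fin n → ℝ) i = 0 := fun i => (hxy i).elim _root_.id _root_.id
    have h1 := x.2.2.1
    rw [sum_eq_zero (fun i _ => h0 i)] at h1
    exact zero_ne_one h1
  · have hO : Pool.Agent.Y131.KS.OddMap (flagComplex G) (2 * δ + 1) := by
      obtain ⟨f, hf, hi⟩ := h
      refine Pool.Agent.Y131.KS.odd_of_coneEmb (L := flagComplex G) (d := 2 * δ + 1) hK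
        (Pool.Agent.Y131.KS.cone_of_almost (flagComplex G)
        (fun x => if hx : x ∈ realization (flagComplex G) then
          (f ⟨x, hx⟩ : EuclideanSpace ℝ (Fin (2 * δ + 1))) else 0) ?_ ?_ ?_)
      · rw [continuousOn_iff_continuous_domRestrict]
        have h0 : Continuous (fun x : realization (flagComplex G) =>
            (f x : EuclideanSpace ℝ (Fin (2 * δ + 1)))) := continuous_subtype_val.comp hf
        refine h0.congr ?_
        intro x
        have hx : (x : Fin n → ℝ) ∈ realization (flagComplex G) := x.2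
        show (f x : EuclideanSpace ℝ (Fin (2 * δ + 1))) =
          if hx : (x : Fin n → ℝ) ∈ realization (flagComplex G) then
          (f ⟨(x : Fin n → ℝ), hx⟩ : EuclideanSpace ℝ (Fin (2 * δ + 1))) else 0
        rw [dif_pos hx]
      · intro x hx
        have hx' : x ∈ realization (flagComplex G) := hx
        rw [dif_pos hx']
        exact mem_sphere_zero_iff_norm.1 (f ⟨x, hx'⟩).2
      · intro x hx y hy hxy he
        have hx' : x ∈ realization (flagComplex G) := hx
        have hy' : y ∈ realization (flagComplex G) := hy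
        rw [dif_pos hx', dif_pos hy'] at he
        exact hi ⟨x, hx'⟩ ⟨y, hy'⟩ hxy (Subtype.ext he)
    have hV := Pool.Agent.Y131.KS.vk2_of_odd (L := flagComplex G) (d := 2 * δ + 1) hK hO
    intro Z h1 h2 h3
    exact hV Z h1 h2 (fun ρ τ a b => h3 ρ τ a (by omega))
  · obtain ⟨N, K', f, hK', hf⟩ := h
    have hH : Pool.Agent.Y131.KS.HSph K' (2 * δ + 1) := ⟨hK'.1, hK'.2.1, hK'.2.2.1, hK'.2.2.2⟩
    have hV := Pool.Agent.Y131.KS.vk2_of_sphere hH f hf
    intro Z h1 h2 h3
    exact hV Z h1 h2 (fun ρ τ a b => h3 ρ τ a (by omega))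

end Pool.Agent.Results.MP_4f4d9f_gt.BalancedNerves
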